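import Pool.Agent.H389R2.NS.Fin

/-!
Dynamical critical bond percolation on `ℤ²`: almost surely there are times at which an infinite
open (black) cluster and an infinite dual (white) cluster coexist.
-/

set_option autoImplicit false

open MeasureTheory

namespace Pool.Agent.Results.MP_115c1a_pr.CoexistingClusters

/-- Edges of `ℤ²`: `(x, y, true)` joins `(x, y)` and `(x + 1, y)`, and `(x, y, false)` joins
`(x, y)` and `(x, y + 1)`. -/
abbrev Edge := ℤ × ℤ × Bool

/-- Dynamical percolation at `p = 1/2`: started from fair coins; every edge is refreshed at rate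
`1`, independently, by a fair coin. `ω t w e = true` means that `e` is open at time `t`. The
process is described by its finite-dimensional distributions (the state of an edge at the times
`t₀ ≤ t₁ ≤ …` is a Markov chain which is uniform at time `t₀` and keeps its value between `s` and
`t` with probability `(1 + exp (-(t - s))) / 2`, different edges are independent) and by the
right continuity and the existence of left limits of the trajectories. -/
structure IsDynamicalPercolation {Ω : Type} [MeasurableSpace Ω] (μ : Measure Ω)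
    (ω : ℝ → Ω → Edge → Bool) : Prop where
  meas : ∀ (t : ℝ) (e : Edge), Measurable (fun w => ω t w e)
  fdd : ∀ (F : Finset Edge) (n : ℕ) (t : Fin (n + 1) → ℝ) (a : Edge → Fin (n + 1) → Bool),
      0 ≤ t 0 → Monotone t →
      μ {w | ∀ e ∈ F, ∀ i, ω (t i) w e = a e i} =
        ENNReal.ofReal (∏ e ∈ F, ((1 / 2 : ℝ) * ∏ i : Fin n,
          (if a e i.castSucc = a e i.succ
            then (1 + Real.exp (-(t i.succ - t i.castSucc))) / 2
            else (1 - Real.exp (-(t i.succ - t i.castSucc))) / 2)))
  cadlag : ∀ᵐ w ∂μ, ∀ e : Edge,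
      (∀ t : ℝ, 0 ≤ t → ∃ ε > 0, ∀ s : ℝ, t ≤ s → s < t + ε → ω s w e = ω t w e) ∧
      (∀ t : ℝ, 0 < t → ∃ ε > 0, ε ≤ t ∧ ∀ s s' : ℝ,
        t - ε < s → s < t → t - ε < s' → s' < t → ω s w e = ω s' w e)

/-- The graph of the open edges. -/
def blackGraph (η : Edge → Bool) : SimpleGraph (ℤ × ℤ) :=
  SimpleGraph.fromRel (fun u v =>
    (v = (u.1 + 1, u.2) ∧ η (u.1, u.2, true) = true) ∨
      (v = (u.1, u.2 + 1) ∧ η (u.1, u.2, false) = true))

/-- The graph of the open dual edges (a dual edge is open if and only if the edge which it crosses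
is closed). The vertex `(x, y)` stands for the dual vertex `(x + 1/2, y + 1/2)`: the dual edge
between `(x - 1/2, y + 1/2)` and `(x + 1/2, y + 1/2)` crosses `(x, y, false)`, the dual edge between
`(x + 1/2, y - 1/2)` and `(x + 1/2, y + 1/2)` crosses `(x, y, true)`. -/
def whiteGraph (η : Edge → Bool) : SimpleGraph (ℤ × ℤ) :=
  SimpleGraph.fromRel (fun f g =>
    (g = (f.1 + 1, f.2) ∧ η (g.1, g.2, false) = false) ∨
      (g = (f.1, f.2 + 1) ∧ η (g.1, g.2, true) = false))

/-- Almost surely there is a time (even in `[0, 1]`) at which there are both an infinite open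
cluster and an infinite dual cluster. -/
theorem result (Ω : Type) [MeasurableSpace Ω] (μ : Measure Ω) [IsProbabilityMeasure μ]
    (ω : ℝ → Ω → Edge → Bool) (h : IsDynamicalPercolation μ ω) :
    ∀ᵐ w ∂μ, ∃ t : ℝ, 0 ≤ t ∧ t ≤ 1 ∧
      (∃ C : (blackGraph (ω t w)).ConnectedComponent, C.supp.Infinite) ∧
      (∃ C : (whiteGraph (ω t w)).ConnectedComponent, C.supp.Infinite) := by
  have h' : H389NS.IsDP μ ω := ⟨h.meas, h.fdd, h.cadlag⟩
  filter_upwards [H389NS.dp_main Ω μ ω h'] with w hw
  obtain ⟨t, ht0, ht1, ⟨v, hv⟩, f, hf⟩ := hw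
  refine ⟨t, ht0, ht1, ?_, ?_⟩
  · refine ⟨(blackGraph (ω t w)).connectedComponentMk v, hv.mono ?_⟩
    intro u hu
    have key : ∀ u, H974.Reach (H389NS.opE ω t w) v u → (blackGraph (ω t w)).Reachable v u := by
      intro u hu
      induction hu with
      | refl => exact SimpleGraph.Reachable.refl _
      | tail _ hadj ih =>
        refine ih.trans (SimpleGraph.Adj.reachable ?_)
        obtain ⟨⟨x, y, b⟩, he, hor⟩ := hadj
        have he' : ω t w (x, y, b) = true := he
        unfold blackGraph
        rw [SimpleGraph.fromRel_adj]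
        rcases b with _ | _
        · simp only [H974.src_mk, H974.tgt_false] at hor
          rcases hor with ⟨rfl, rfl⟩ | ⟨rfl, rfl⟩
          · refine ⟨by simp, Or.inl (Or.inr ⟨rfl, he'⟩)⟩
          · refine ⟨by simp, Or.inr (Or.inr ⟨rfl, he'⟩)⟩
        · simp only [H974.src_mk, H974.tgt_true] at hor
          rcases hor with ⟨rfl, rfl⟩ | ⟨rfl, rfl⟩
          · refine ⟨by simp, Or.inl (Or.inl ⟨rfl, he'⟩)⟩
          · refine ⟨by simp, Or.inr (Or.inl ⟨rfl, he'⟩)⟩
    rw [SimpleGraph.ConnectedComponent.mem_supp_iff, SimpleGraph.ConnectedComponent.eq]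
    exact (key u hu).symm
  · refine ⟨(whiteGraph (ω t w)).connectedComponentMk f, hf.mono ?_⟩
    intro u hu
    have key : ∀ u, H974.DReach (H389NS.opE ω t w)ᶜ f u → (whiteGraph (ω t w)).Reachable f u := by
      intro u hu
      induction hu with
      | refl => exact SimpleGraph.Reachable.refl _
      | tail _ hadj ih =>
        refine ih.trans (SimpleGraph.Adj.reachable ?_)
        obtain ⟨⟨x, y, b⟩, he, hor⟩ := hadj
        have he' : ω t w (x, y, b) = false := by
          have : ¬ (ω t w (x, y, b) = true) := he
          simpa using this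
        unfold whiteGraph
        rw [SimpleGraph.fromRel_adj]
        rcases b with _ | _
        · simp only [H974.dsrc_false, H974.dtgt_mk] at hor
          rcases hor with ⟨rfl, rfl⟩ | ⟨rfl, rfl⟩
          · refine ⟨fun hh => ?_, Or.inl (Or.inl ⟨by simp, he'⟩)⟩
            have := congrArg Prod.fst hh
            simp only at this
            omega
          · refine ⟨fun hh => ?_, Or.inr (Or.inl ⟨by simp, he'⟩)⟩
            have := congrArg Prod.fst hh
            simp only at this
            omega
        · simp only [H974.dsrc_true, H974.dtgt_mk] at hor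
          rcases hor with ⟨rfl, rfl⟩ | ⟨rfl, rfl⟩
          · refine ⟨fun hh => ?_, Or.inl (Or.inr ⟨by simp, he'⟩)⟩
            have := congrArg Prod.snd hh
            simp only at this
            omega
          · refine ⟨fun hh => ?_, Or.inr (Or.inr ⟨by simp, he'⟩)⟩
            have := congrArg Prod.snd hh
            simp only at this
            omega
    rw [SimpleGraph.ConnectedComponent.mem_supp_iff, SimpleGraph.ConnectedComponent.eq]
    exact (key u hu).symm

end Pool.Agent.Results.MP_115c1a_pr.CoexistingClusters
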